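import Pool.Agent.K7.H87.FJ6.Lek
import Pool.Agent.K7.H87.FJ4.PP

/-!
# Amalgam decompositions of Shephard groups
-/

set_option autoImplicit false

namespace Pool.Agent.K7.H87.FJ6

open Monoid Pool.Agent.Helper741 Pool.Agent.R684.FP Pool.Agent.Y110.FJ Pool.Agent.K7.H87.FJ3
  Pool.Agent.K7.H87.FJ4
open Pool.Agent.R941.FJ (C_cyc C_le C_equiv)

section par

variable {S : Type} (M : CoxeterMatrix S) (p : S → ℕ)

/-- the submatrix of the indices with the property `P` -/
abbrev sub (P : S → Prop) : CoxeterMatrix {x // P x} := pull M Subtype.val Subtype.val_injective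

/-- the map from the parabolic group -/
def iP (P : S → Prop) : Sh (sub M P) (p ∘ Subtype.val) →* Sh M p :=
  inc M p Subtype.val Subtype.val_injective

/-- the standard parabolic subgroup -/
def rg (P : S → Prop) : Subgroup (Sh M p) := (iP M p P).range

variable {M p}

theorem iP_gen {P : S → Prop} (x : {x // P x}) :
    iP M p P (Sh.gen _ _ x) = Sh.gen M p x.1 := inc_gen _ _ _ _ _

theorem gen_mem {P : S → Prop} {x : S} (h : P x) : Sh.gen M p x ∈ rg M p P :=
  ⟨Sh.gen _ _ ⟨x, h⟩, iP_gen _⟩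

theorem rg_le {P : S → Prop} {H : Subgroup (Sh M p)} (h : ∀ x, P x → Sh.gen M p x ∈ H) :
    rg M p P ≤ H := by
  rintro _ ⟨y, rfl⟩
  induction y using Sh.induction with
  | one => rw [map_one]; exact H.one_mem
  | gen i => rw [iP_gen]; exact h i.1 i.2
  | mul x y hx hy => rw [map_mul]; exact H.mul_mem hx hy
  | inv x hx => rw [map_inv]; exact H.inv_mem hx

theorem rg_mono {P Q : S → Prop} (h : ∀ x, P x → Q x) : rg M p P ≤ rg M p Q :=
  rg_le fun x hx => gen_mem (h x hx)

theorem iP_injective [Finite S] (hp : Adm M p) (P : S → Prop) :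
    Function.Injective (iP M p P) := inc_injective hp _ _

variable {C : ∀ (G : Type) [Group G], Prop}

theorem C_rg [Finite S] (hC : ClosedE C) (hp : Adm M p) {P : S → Prop}
    (h : C (Sh (sub M P) (p ∘ Subtype.val))) : C (rg M p P) :=
  C_equiv hC.base (MonoidHom.ofInjective (iP_injective hp P)).symm h

/-- the closure theorem for a separation -/
theorem amal2 (hC : ClosedE C) (hFb : FbC C) (P Q : S → Prop) (hPQ : ∀ x, P x ∨ Q x)
    (h0 : ∀ x y, P x → ¬ Q x → Q y → ¬ P y → M x y = 0)
    {L : Type} [Group L] (f : Sh M p →* L)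
    (hf : ∀ x ∈ rg M p (fun x => P x ∧ Q x), f x = 1 → x = 1)
    (hP : C (rg M p P)) (hQ : C (rg M p Q)) (hL : C L) : C (Sh M p) := by
  classical
  let R : Bool → S → Prop := fun b x => cond b (P x) (Q x)
  let A : Bool → Subgroup (Sh M p) := fun b => rg M p (R b)
  let K : Subgroup (Sh M p) := rg M p (fun x => P x ∧ Q x)
  have hK : ∀ b, K ≤ A b := by
    intro b
    refine rg_mono fun x hx => ?_
    cases b
    · exact hx.2
    · exact hx.1
  let φ := fun b => Subgroup.inclusion (hK b)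
  let ψ0 : S → PushoutI φ := fun x =>
    if h : P x then PushoutI.of (φ := φ) true ⟨Sh.gen M p x, gen_mem (P := R true) h⟩
    else PushoutI.of (φ := φ) false
      ⟨Sh.gen M p x, gen_mem (P := R false) ((hPQ x).resolve_left h)⟩
  have hψ0 : ∀ (b : Bool) (x : S) (hx : R b x),
      ψ0 x = PushoutI.of (φ := φ) b ⟨Sh.gen M p x, gen_mem hx⟩ := by
    intro b x hx
    cases b
    · by_cases h : P x
      · have h1 : ψ0 x = PushoutI.of (φ := φ) true ⟨Sh.gen M p x, gen_mem (P := R true) h⟩ :=
          dif_pos h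
        have hxK : Sh.gen M p x ∈ K := gen_mem ⟨h, hx⟩
        have h2 : ∀ b, PushoutI.of (φ := φ) b (φ b ⟨Sh.gen M p x, hxK⟩) =
            PushoutI.base φ ⟨Sh.gen M p x, hxK⟩ := fun b => PushoutI.of_apply_eq_base φ b _
        rw [h1]
        exact (h2 true).trans (h2 false).symm
      · exact dif_neg h
    · exact dif_pos hx
  let ψ : Sh M p →* PushoutI φ := Sh.lift ψ0 (by
    intro i j
    by_cases h : ∃ b : Bool, R b i ∧ R b j
    · obtain ⟨b, hi, hj⟩ := h
      rw [hψ0 b i hi, hψ0 b j hj, ← map_alt, ← map_alt]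
      congr 1
      apply Subtype.ext
      have h1 : ∀ u v : A b, ((alt u v (M i j) : A b) : Sh M p) = alt u.1 v.1 (M i j) :=
        fun u v => map_alt (A b).subtype u v _
      rw [h1, h1]
      exact Sh.rel i j
    · have h1 : ¬ (P i ∧ P j) := fun h1 => h ⟨true, h1⟩
      have h2 : ¬ (Q i ∧ Q j) := fun h1 => h ⟨false, h1⟩
      have h3 : M i j = 0 := by
        by_cases hi : P i
        · have hj : ¬ P j := fun hj => h1 ⟨hi, hj⟩
          have hj' : Q j := (hPQ j).resolve_left hj
          exact h0 i j hi (fun hi' => h2 ⟨hi', hj'⟩) hj' hj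
        · have hi' : Q i := (hPQ i).resolve_left hi
          have hj : ¬ Q j := fun hj => h2 ⟨hi', hj⟩
          rw [M.symmetric]
          exact h0 j i ((hPQ j).resolve_right hj) hj hi' hi
      rw [h3, alt_zero, alt_zero]) (by
    intro i
    have h1 : ∃ b : Bool, R b i := by
      rcases hPQ i with h | h
      · exact ⟨true, h⟩
      · exact ⟨false, h⟩
    obtain ⟨b, hb⟩ := h1
    rw [hψ0 b i hb, ← map_pow]
    have h2 : (⟨Sh.gen M p i, gen_mem hb⟩ : A b) ^ p i = 1 := by
      apply Subtype.ext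
      rw [Subgroup.coe_pow, Subgroup.coe_one]
      exact Sh.pow i
    rw [h2, map_one])
  have hψ : ∀ b (x : A b), ψ x.1 = PushoutI.of (φ := φ) b x := by
    intro b x
    let ρ : Sh (sub M (R b)) (p ∘ Subtype.val) →* A b := (iP M p (R b)).rangeRestrict
    have hρ : ∀ y, (ρ y : Sh M p) = iP M p (R b) y := fun y => rfl
    have h1 : ψ.comp (iP M p (R b)) = (PushoutI.of (φ := φ) b).comp ρ := by
      apply Sh.hom_ext
      intro i
      rw [MonoidHom.comp_apply, MonoidHom.comp_apply, iP_gen]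
      have h2 : ψ (Sh.gen M p i.1) = ψ0 i.1 := Sh.lift_gen _ _ _ _
      rw [h2, hψ0 b i.1 i.2]
      have h3 : (⟨Sh.gen M p i.1, gen_mem i.2⟩ : A b) = ρ (Sh.gen _ _ i) :=
        Subtype.ext ((hρ _).trans (iP_gen i)).symm
      rw [h3]
    obtain ⟨y, hy⟩ := x.2
    have h2 := DFunLike.congr_fun h1 y
    rw [MonoidHom.comp_apply, MonoidHom.comp_apply, hy] at h2
    have h3 : ρ y = x := Subtype.ext ((hρ y).trans hy)
    rw [h2, h3]
  have hT : (⊤ : Subgroup (Sh M p)) ≤ A true ⊔ A false := by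
    rw [← Sh.closure_range_gen, Subgroup.closure_le]
    rintro _ ⟨x, rfl⟩
    rcases hPQ x with h | h
    · exact Subgroup.mem_sup_left (gen_mem (P := R true) h)
    · exact Subgroup.mem_sup_right (gen_mem (P := R false) h)
  have h1 : C (⊤ : Subgroup (Sh M p)) := by
    refine amalgam_internal hC hFb A K ⊤ hK hT ψ hψ f hf ?_ hL
    intro b
    cases b
    · exact hQ
    · exact hP
  exact C_equiv hC.base (Subgroup.topEquiv (G := Sh M p)).symm h1

/-- the closure theorem for one missing edge -/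
theorem amal (hC : ClosedE C) (hFb : FbC C) {s t : S} (hst : s ≠ t) (h0 : M s t = 0)
    {Q : Type} [Group Q] (f : Sh M p →* Q)
    (hf : ∀ x ∈ rg M p (fun x => x ≠ s ∧ x ≠ t), f x = 1 → x = 1)
    (hs : C (rg M p (fun x => x ≠ s))) (ht : C (rg M p (fun x => x ≠ t))) (hQ : C Q) :
    C (Sh M p) := by
  refine amal2 hC hFb (fun x => x ≠ s) (fun x => x ≠ t) ?_ ?_ f hf hs ht hQ
  · intro x
    by_cases hx : x = s
    · exact Or.inr (by rw [hx]; exact hst)
    · exact Or.inl hx
  · intro x y _ hx _ hy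
    rw [not_not.1 hx, not_not.1 hy, M.symmetric, h0]

/-! ### deleting relations -/

/-- the natural map -/
def nat (p : S → ℕ) {M M' : CoxeterMatrix S} (h : ∀ i j, M i j = M' i j ∨ M i j = 0) :
    Sh M p →* Sh M' p :=
  Sh.lift (Sh.gen M' p) (by
    intro i j
    rcases h i j with h1 | h1
    · rw [h1]
      exact Sh.rel i j
    · rw [h1, alt_zero, alt_zero]) (fun i => Sh.pow i)

theorem nat_gen {M M' : CoxeterMatrix S} (h : ∀ i j, M i j = M' i j ∨ M i j = 0) (i : S) :
    nat p h (Sh.gen M p i) = Sh.gen M' p i := Sh.lift_gen _ _ _ _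

theorem nat_injective_of_eq {M M' : CoxeterMatrix S} (h : ∀ i j, M i j = M' i j ∨ M i j = 0)
    (he : ∀ i j, M i j = M' i j) : Function.Injective (nat p h) := by
  let g : Sh M' p →* Sh M p := nat p (M := M') (M' := M) fun i j => Or.inl (he i j).symm
  have h1 : g.comp (nat p h) = MonoidHom.id _ := by
    apply Sh.hom_ext
    intro i
    rw [MonoidHom.comp_apply, nat_gen, nat_gen, MonoidHom.id_apply]
  intro x y hxy
  have h2 : ∀ x, g (nat p h x) = x := fun x => DFunLike.congr_fun h1 x
  rw [← h2 x, ← h2 y, hxy]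

theorem nat_rg [Finite S] {M M' : CoxeterMatrix S} (h : ∀ i j, M i j = M' i j ∨ M i j = 0)
    (hp : Adm M' p) {P : S → Prop} (he : ∀ i j, P i → P j → M i j = M' i j) :
    ∀ x ∈ rg M p P, nat p h x = 1 → x = 1 := by
  rintro _ ⟨y, rfl⟩ hy
  have h1 : ∀ i j : {x // P x}, sub M P i j = sub M' P i j := fun i j => he i.1 j.1 i.2 j.2
  have h2 : (nat p h).comp (iP M p P) =
      (iP M' p P).comp (nat (p ∘ Subtype.val) (fun i j => Or.inl (h1 i j))) := by
    apply Sh.hom_ext
    intro i
    rw [MonoidHom.comp_apply, MonoidHom.comp_apply, iP_gen, nat_gen, nat_gen, iP_gen]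
  have h3 := DFunLike.congr_fun h2 y
  rw [MonoidHom.comp_apply, MonoidHom.comp_apply, hy] at h3
  have h4 := iP_injective hp P (h3.symm.trans (map_one _).symm)
  have h5 := nat_injective_of_eq (fun i j => Or.inl (h1 i j)) h1 (h4.trans (map_one _).symm)
  rw [h5, map_one]

theorem Adm.of_del {M M' : CoxeterMatrix S} (h : ∀ i j, M i j = M' i j ∨ M i j = 0)
    (hp : Adm M' p) : Adm M p := by
  refine ⟨hp.even, fun i j hij => hp.odd i j ?_⟩
  rcases h i j with h1 | h1
  · rwa [← h1]
  · rw [h1] at hij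
    exact absurd hij (by decide)

/-- one relation is deleted -/
theorem del_step [Finite S] (hC : ClosedE C) (hFb : FbC C) {M M' : CoxeterMatrix S}
    (hp : Adm M' p) {s t : S} (hst : s ≠ t) (h0 : M s t = 0)
    (he : ∀ i j, ¬ (i = s ∧ j = t) → ¬ (i = t ∧ j = s) → M i j = M' i j)
    (hC' : C (Sh M' p)) : C (Sh M p) := by
  have h : ∀ i j, M i j = M' i j ∨ M i j = 0 := by
    intro i j
    by_cases h1 : i = s ∧ j = t
    · right
      rw [h1.1, h1.2, h0]
    · by_cases h2 : i = t ∧ j = s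
      · right
        rw [h2.1, h2.2, M.symmetric, h0]
      · exact Or.inl (he i j h1 h2)
  have hsub : ∀ P : S → Prop, (∀ i j, P i → P j → M i j = M' i j) → C (rg M p P) := by
    intro P hP
    refine hC.base.of_injective _ _ ((nat p h).comp (rg M p P).subtype) ?_ hC'
    refine (injective_iff_map_eq_one _).2 fun x hx => ?_
    exact Subtype.ext (nat_rg h hp hP x.1 x.2 hx)
  refine amal hC hFb hst h0 (nat p h) ?_ ?_ ?_ hC'
  · exact nat_rg h hp fun i j hi hj => he i j (fun h1 => hi.1 h1.1) (fun h1 => hi.2 h1.1)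
  · exact hsub _ fun i j hi hj => he i j (fun h1 => hi h1.1) (fun h1 => hj h1.2)
  · exact hsub _ fun i j hi hj => he i j (fun h1 => hj h1.2) (fun h1 => hi h1.1)

/-- **deleting relations** -/
theorem del [Finite S] (hC : ClosedE C) (hFb : FbC C) {M' : CoxeterMatrix S} (hp : Adm M' p)
    (hC' : C (Sh M' p)) (M : CoxeterMatrix S) (h : ∀ i j, M i j = M' i j ∨ M i j = 0) :
    C (Sh M p) := by
  classical
  have := Fintype.ofFinite S
  obtain ⟨n, hn⟩ : ∃ n, n = (Finset.univ.filter fun x : S × S => M x.1 x.2 ≠ M' x.1 x.2).card :=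
    ⟨_, rfl⟩
  induction n using Nat.strong_induction_on generalizing M with
  | _ n ih =>
  by_cases hex : ∃ s t, M s t ≠ M' s t
  · obtain ⟨s, t, hne⟩ := hex
    have h0 : M s t = 0 := (h s t).resolve_left hne
    have hst : s ≠ t := by
      intro h1
      rw [h1, M.diagonal] at h0
      exact one_ne_zero h0
    let M1 : CoxeterMatrix S :=
      { M := Matrix.of fun i j => if (i = s ∧ j = t) ∨ (i = t ∧ j = s) then M' s t else M i j
        isSymm := by
          ext i j
          simp only [Matrix.transpose_apply, Matrix.of_apply]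
          have h1 : ((j = s ∧ i = t) ∨ (j = t ∧ i = s)) ↔
              ((i = s ∧ j = t) ∨ (i = t ∧ j = s)) := by tauto
          rw [if_congr h1 rfl (M.symmetric j i)]
        diagonal := by
          intro i
          simp only [Matrix.of_apply]
          have h1 : ¬ ((i = s ∧ i = t) ∨ (i = t ∧ i = s)) := by
            rintro (⟨h1, h2⟩ | ⟨h1, h2⟩)
            · exact hst (h1.symm.trans h2)
            · exact hst (h2.symm.trans h1)
          rw [if_neg h1]
          exact M.diagonal i
        off_diagonal := by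
          intro i j hij
          simp only [Matrix.of_apply]
          split_ifs
          · exact M'.off_diagonal s t hst
          · exact M.off_diagonal i j hij }
    have hM1 : ∀ i j, M1 i j = if (i = s ∧ j = t) ∨ (i = t ∧ j = s) then M' s t else M i j :=
      fun i j => rfl
    have hM1' : ∀ i j, ¬ (i = s ∧ j = t) → ¬ (i = t ∧ j = s) → M i j = M1 i j := by
      intro i j h1 h2
      rw [hM1, if_neg (not_or.2 ⟨h1, h2⟩)]
    have h1 : ∀ i j, M1 i j = M' i j ∨ M1 i j = 0 := by
      intro i j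
      rw [hM1]
      split_ifs with h2
      · left
        rcases h2 with ⟨h3, h4⟩ | ⟨h3, h4⟩
        · rw [h3, h4]
        · rw [h3, h4]
          exact M'.symmetric s t
      · exact h i j
    refine del_step hC hFb (hp.of_del h1) hst h0 hM1' ?_
    refine ih _ ?_ M1 h1 rfl
    rw [hn]
    apply Finset.card_lt_card
    rw [Finset.ssubset_iff_subset_ne]
    constructor
    · intro x hx
      rw [Finset.mem_filter] at hx ⊢
      refine ⟨hx.1, fun h2 => hx.2 ?_⟩
      rw [hM1]
      split_ifs with h3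
      · rcases h3 with ⟨h4, h5⟩ | ⟨h4, h5⟩
        · rw [h4, h5]
        · rw [h4, h5]
          exact M'.symmetric s t
      · exact h2
    · intro h2
      have h3 : (s, t) ∈ Finset.univ.filter fun x : S × S => M x.1 x.2 ≠ M' x.1 x.2 := by
        rw [Finset.mem_filter]
        exact ⟨Finset.mem_univ _, hne⟩
      rw [← h2, Finset.mem_filter] at h3
      apply h3.2
      rw [hM1, if_pos (Or.inl ⟨rfl, rfl⟩)]
  · push Not at hex
    exact hC.base.of_injective _ _ (nat p h) (nat_injective_of_eq h hex) hC'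

/-! ### foldings -/

theorem alt_add {G : Type} [Monoid G] (a b : G) (m n : ℕ) :
    alt a b (m + n) = alt a b m * (if Even m then alt a b n else alt b a n) := by
  induction m generalizing a b with
  | zero => simp
  | succ m ih =>
    rw [show m + 1 + n = (m + n) + 1 by ring, alt_succ, ih, alt_succ a b m, mul_assoc]
    congr 2
    by_cases h : Even m
    · rw [if_pos h, if_neg (by rw [Nat.not_even_iff_odd]; exact h.add_one)]
    · rw [if_neg h, if_pos (by rw [Nat.not_even_iff_odd] at h; exact h.add_one)]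

theorem alt_dvd {G : Type} [Monoid G] {a b : G} {m n : ℕ} (h : alt a b m = alt b a m)
    (hmn : m ∣ n) : alt a b n = alt b a n := by
  obtain ⟨k, rfl⟩ := hmn
  induction k with
  | zero => simp
  | succ k ih =>
    rw [Nat.mul_succ, add_comm, alt_add, alt_add b a, h, ih]

theorem alt_one {G : Type} [Monoid G] (u : G) {m : ℕ} (h : Even m) : alt 1 u m = alt u 1 m := by
  obtain ⟨k, rfl⟩ := h
  rw [← two_mul, alt_mul_two, alt_mul_two, one_mul, mul_one]

/-- the homomorphism of a map of labelled sets; generators may be killed -/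
theorem exists_hom {S' : Type} (N : CoxeterMatrix S') (q : S' → ℕ) (ρ : S → Option S')
    (hpow : ∀ x u, ρ x = some u → q u ∣ p x)
    (hlab : ∀ x y u v, ρ x = some u → ρ y = some v → N u v ∣ M x y)
    (hev : ∀ x y v, ρ x = none → ρ y = some v → Even (M x y)) :
    ∃ f : Sh M p →* Sh N q, ∀ x u, ρ x = some u → f (Sh.gen M p x) = Sh.gen N q u := by
  classical
  have hex : ∀ x : S, ∃ g : Sh N q, (ρ x = none → g = 1) ∧
      ∀ u, ρ x = some u → g = Sh.gen N q u := by
    intro x
    rcases h : ρ x with _ | u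
    · refine ⟨1, fun _ => rfl, ?_⟩
      intro u hu
      cases hu
    · refine ⟨Sh.gen N q u, ?_, ?_⟩
      · intro hu
        cases hu
      · intro v hv
        exact congrArg (Sh.gen N q) (Option.some.inj hv)
  choose f0 hf1 hf2 using hex
  refine ⟨Sh.lift f0 ?_ ?_, ?_⟩
  · intro i j
    rcases hi : ρ i with _ | u
    · rw [hf1 i hi]
      rcases hj : ρ j with _ | v
      · rw [hf1 j hj]
      · exact alt_one _ (hev i j v hi hj)
    · rcases hj : ρ j with _ | v
      · rw [hf1 j hj]
        exact (alt_one _ (by rw [M.symmetric]; exact hev j i u hj hi)).symm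
      · rw [hf2 i u hi, hf2 j v hj]
        exact alt_dvd (Sh.rel u v) (hlab i j u v hi hj)
  · intro i
    rcases hi : ρ i with _ | u
    · rw [hf1 i hi, one_pow]
    · rw [hf2 i u hi]
      obtain ⟨k, hk⟩ := hpow i u hi
      rw [hk, pow_mul, Sh.pow, one_pow]
  · intro x u hu
    rw [Sh.lift_gen, hf2 x u hu]

/-- the combination theorem -/
theorem fold_closed (hC : ClosedE C) (hFb : FbC C) (P Q : S → Prop)
    (hPQ : ∀ x, P x ∨ Q x) (h0 : ∀ x y, P x → ¬ Q x → Q y → ¬ P y → M x y = 0)
    {S' : Type} [Finite S'] (N : CoxeterMatrix S') (q : S' → ℕ) (hq : Adm N q)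
    (ρ : S → Option S')
    (hpow : ∀ x u, ρ x = some u → q u ∣ p x)
    (hlab : ∀ x y u v, ρ x = some u → ρ y = some v → N u v ∣ M x y)
    (hev : ∀ x y v, ρ x = none → ρ y = some v → Even (M x y))
    (hT : ∀ x, P x → Q x → ∃ u, ρ x = some u ∧ q u = p x)
    (hex : ∀ x y, P x → Q x → P y → Q y → ∀ u v, ρ x = some u → ρ y = some v → N u v = M x y)
    (hP : C (rg M p P)) (hQ : C (rg M p Q)) (hN : C (Sh N q)) : C (Sh M p) := by
  obtain ⟨f, hf⟩ := exists_hom (M := M) (p := p) N q ρ hpow hlab hev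
  refine amal2 hC hFb P Q hPQ h0 f ?_ hP hQ hN
  let T : S → Prop := fun x => P x ∧ Q x
  have hch : ∀ x : {x // T x}, ∃ u, ρ x.1 = some u ∧ q u = p x.1 := fun x => hT x.1 x.2.1 x.2.2
  choose τ hτ1 hτ2 using hch
  have hlabτ : ∀ x y : {x // T x}, N (τ x) (τ y) = M x.1 y.1 := fun x y =>
    hex x.1 y.1 x.2.1 x.2.2 y.2.1 y.2.2 _ _ (hτ1 x) (hτ1 y)
  have hτ : Function.Injective τ := by
    intro x y hxy
    by_contra hne
    have h1 := hlabτ x y
    rw [hxy, N.diagonal] at h1
    exact M.off_diagonal x.1 y.1 (fun h => hne (Subtype.ext h)) h1.symm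
  obtain ⟨g, hg⟩ := exists_hom (M := pull N τ hτ) (p := q ∘ τ) (sub M T) (p ∘ Subtype.val)
    (fun x => some x) (by
      intro x u hu
      rw [← Option.some.inj hu]
      show p x.1 ∣ q (τ x)
      rw [hτ2]) (by
      intro x y u v hu hv
      rw [← Option.some.inj hu, ← Option.some.inj hv]
      show M x.1 y.1 ∣ N (τ x) (τ y)
      rw [hlabτ]) (by
      intro x y v hx
      cases hx)
  obtain ⟨g', hg'⟩ := exists_hom (M := sub M T) (p := p ∘ Subtype.val) (pull N τ hτ) (q ∘ τ)
    (fun x => some x) (by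
      intro x u hu
      rw [← Option.some.inj hu]
      show q (τ x) ∣ p x.1
      rw [hτ2]) (by
      intro x y u v hu hv
      rw [← Option.some.inj hu, ← Option.some.inj hv]
      show N (τ x) (τ y) ∣ M x.1 y.1
      rw [hlabτ]) (by
      intro x y v hx
      cases hx)
  have hgg : g.comp g' = MonoidHom.id _ := by
    apply Sh.hom_ext
    intro i
    rw [MonoidHom.comp_apply, hg' i i rfl, hg i i rfl, MonoidHom.id_apply]
  have hfg : f.comp (iP M p T) = (inc N q τ hτ).comp g' := by
    apply Sh.hom_ext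
    intro i
    rw [MonoidHom.comp_apply, MonoidHom.comp_apply, iP_gen, hf _ _ (hτ1 i), hg' i i rfl, inc_gen]
  rintro _ ⟨y, rfl⟩ hy
  have h1 := DFunLike.congr_fun hfg y
  rw [MonoidHom.comp_apply, MonoidHom.comp_apply] at h1
  have h2 : f (iP M p T y) = 1 := hy
  rw [h2] at h1
  have h3 := inc_injective hq τ hτ (h1.symm.trans (map_one _).symm)
  have h4 := DFunLike.congr_fun hgg y
  rw [MonoidHom.comp_apply, h3, map_one, MonoidHom.id_apply] at h4
  rw [← h4, map_one]

/-! ### the main theorem -/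

theorem C_reindex (hC : ClosedE C) (hp : Adm M p) {A1 A2 : Type} [Finite A2] (ι1 : A1 → S)
    (ι2 : A2 → S) (h1 : Function.Injective ι1) (h2 : Function.Injective ι2) (e : A1 → A2)
    (he : ∀ a, ι1 a = ι2 (e a)) (h : C (Sh (pull M ι2 h2) (p ∘ ι2))) :
    C (Sh (pull M ι1 h1) (p ∘ ι1)) := by
  obtain rfl : ι1 = ι2 ∘ e := funext he
  have he' : Function.Injective e := fun a b hab => h1 (congrArg ι2 hab)
  exact hC.base.of_injective _ _ (inc (pull M ι2 h2) (p ∘ ι2) e he')
    (inc_injective (hp.pull ι2 h2) e he') h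

/-- the submatrix `M|X` has a completion in the class -/
def Completable (C : ∀ (G : Type) [Group G], Prop) (M : CoxeterMatrix S) (p : S → ℕ)
    (X : Set S) : Prop :=
  ∃ M' : CoxeterMatrix X, (∀ x y : X, M x y = M' x y ∨ M x y = 0) ∧
    Adm M' (p ∘ Subtype.val) ∧ C (Sh M' (p ∘ Subtype.val))

/-- a map of labelled sets on `X`, where generators may be killed, exact on `T` -/
structure LabMap {S' : Type} (M : CoxeterMatrix S) (p : S → ℕ) (N : CoxeterMatrix S') (q : S' → ℕ)
    (X T : Set S) (ρ : S → Option S') : Prop where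
  pow : ∀ x ∈ X, ∀ u, ρ x = some u → q u ∣ p x
  lab : ∀ x ∈ X, ∀ y ∈ X, ∀ u v, ρ x = some u → ρ y = some v → N u v ∣ M x y
  even : ∀ x ∈ X, ∀ y ∈ X, ∀ v, ρ x = none → ρ y = some v → Even (M x y)
  mem : ∀ x ∈ T, ∃ u, ρ x = some u ∧ q u = p x
  exact : ∀ x ∈ T, ∀ y ∈ T, ∀ u v, ρ x = some u → ρ y = some v → N u v = M x y

/-- `X` is the union of two proper subsets without finite labels across, and there is a map of labelled
sets to a member of the class, which is exact on the intersection -/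
def Splits (C : ∀ (G : Type) [Group G], Prop) (M : CoxeterMatrix S) (p : S → ℕ)
    (X : Set S) : Prop :=
  ∃ (Y Z : Set S) (S' : Type) (_ : Finite S') (N : CoxeterMatrix S') (q : S' → ℕ)
    (ρ : S → Option S'), Y ∪ Z = X ∧ Y ≠ X ∧ Z ≠ X ∧ (∀ y ∈ Y \ Z, ∀ z ∈ Z \ Y, M y z = 0) ∧
      LabMap M p N q X (Y ∩ Z) ρ ∧ Adm N q ∧ C (Sh N q)

/-- **the main theorem** -/
theorem main [Finite S] (hC : ClosedE C) (hFb : FbC C) (hp : Adm M p)
    (h : ∀ X : Set S, Completable C M p X ∨ Splits C M p X) : C (Sh M p) := by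
  have key : ∀ (n : ℕ) (X : Set S), X.ncard = n → C (Sh (sub M (· ∈ X)) (p ∘ Subtype.val)) := by
    intro n
    induction n using Nat.strong_induction_on with
    | _ n ih =>
    intro X hX
    rcases h X with ⟨M', h1, h2, h3⟩ | ⟨Y, Z, S', hS', N, q, ρ, hU, hY, hZ, hsep, hρ, hq, hN⟩
    · exact del hC hFb h2 h3 (sub M (· ∈ X)) h1
    · have hYX : Y ⊆ X := by rw [← hU]; exact Set.subset_union_left
      have hZX : Z ⊆ X := by rw [← hU]; exact Set.subset_union_right
      have hlt : ∀ Y : Set S, Y ⊆ X → Y ≠ X → Y.ncard < n := by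
        intro Y hY1 hY2
        rw [← hX]
        exact Set.ncard_lt_ncard (Set.ssubset_iff_subset_ne.2 ⟨hY1, hY2⟩) (Set.toFinite X)
      have hadm : Adm (sub M (· ∈ X)) (p ∘ Subtype.val) := hp.pull _ _
      have hsub : ∀ Y : Set S, Y ⊆ X → Y ≠ X →
          C (rg (sub M (· ∈ X)) (p ∘ Subtype.val) fun x => x.1 ∈ Y) := by
        intro Y hY1 hY2
        apply C_rg hC hadm
        have h4 := ih _ (hlt Y hY1 hY2) Y rfl
        exact C_reindex (M := M) (p := p) hC hp
          (fun x : {x : {x // x ∈ X} // x.1 ∈ Y} => x.1.1) (fun y : {y // y ∈ Y} => y.1)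
          (fun a b hab => Subtype.ext (Subtype.ext hab)) Subtype.val_injective
          (fun x => ⟨x.1.1, x.2⟩) (fun x => rfl) h4
      refine fold_closed (M := sub M (· ∈ X)) (p := p ∘ Subtype.val) hC hFb (fun x => x.1 ∈ Y)
        (fun x => x.1 ∈ Z) ?_ ?_ N q hq (fun x => ρ x.1) ?_ ?_ ?_ ?_ ?_ (hsub Y hYX hY)
        (hsub Z hZX hZ) hN
      · intro x
        exact hU.symm.subset x.2
      · intro x y h1 h2 h3 h4
        exact hsep x.1 ⟨h1, h2⟩ y.1 ⟨h3, h4⟩
      · intro x u hu
        exact hρ.pow x.1 x.2 u hu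
      · intro x y u v hu hv
        exact hρ.lab x.1 x.2 y.1 y.2 u v hu hv
      · intro x y v hu hv
        exact hρ.even x.1 x.2 y.1 y.2 v hu hv
      · intro x h1 h2
        exact hρ.mem x.1 ⟨h1, h2⟩
      · intro x y h1 h2 h3 h4 u v hu hv
        exact hρ.exact x.1 ⟨h1, h2⟩ y.1 ⟨h3, h4⟩ u v hu hv
  have h1 := key _ Set.univ rfl
  exact C_reindex (M := M) (p := p) hC hp id Subtype.val Function.injective_id
    Subtype.val_injective (fun x => (⟨x, Set.mem_univ x⟩ : {x // x ∈ Set.univ})) (fun x => rfl) h1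

end par

end Pool.Agent.K7.H87.FJ6
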